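import Pool.Agent.H7.KQ.Stmts

set_option autoImplicit false

open Finset

namespace Pool.KQ

open Pool.Agent.H23.KT Pool.Agent.H46.KW

theorem csc_e1_pos (p : ℕ) : 0 < e1 p := by unfold e1; positivity

theorem csc_e1_mul (p : ℕ) : ((p:ℝ) + 3) * e1 p ≤ 1 / 2 := by
  unfold e1
  have hp : (0:ℝ) ≤ p := Nat.cast_nonneg p
  rw [mul_one_div, div_le_div_iff₀ (by positivity) (by norm_num)]
  nlinarith [mul_nonneg hp hp, pow_nonneg hp 3]

theorem csc_e1_le (p : ℕ) : e1 p ≤ 1 / 2 := by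
  have hp : (0:ℝ) ≤ p := Nat.cast_nonneg p
  have h1 := csc_e1_mul p
  have h2 := csc_e1_pos p
  nlinarith

theorem csc_pow (p : ℕ) (e : ℝ) (h0 : 0 ≤ e) (h1 : e ≤ e1 p) : (1 + e) ^ (p + 3) ≤ 2 := by
  have h2 : (1 + e) ^ (p + 3) ≤ Real.exp (1 / 2) := by
    calc (1 + e) ^ (p + 3) ≤ (Real.exp e) ^ (p + 3) :=
          pow_le_pow_left₀ (by linarith) (by linarith [Real.add_one_le_exp e]) _
      _ = Real.exp (((p + 3 : ℕ) : ℝ) * e) := (Real.exp_nat_mul e (p + 3)).symm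
      _ ≤ Real.exp (1 / 2) := by
          apply Real.exp_le_exp.mpr
          have hp : (0:ℝ) ≤ (p:ℝ) + 3 := by positivity
          have := mul_le_mul_of_nonneg_left h1 hp
          push_cast
          linarith [csc_e1_mul p]
  have h3 : Real.exp (1 / 2) ^ 2 < 4 := by
    rw [← Real.exp_nat_mul]
    have := Real.exp_one_lt_d9
    norm_num
    linarith
  nlinarith [Real.exp_pos (1 / 2 : ℝ)]

theorem csc (h1 : CSAStmt) (h2 : CSBStmt) (h3 : TRVStmt) : CSCStmt := by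
  intro p
  obtain ⟨η, e₀, hη, hη4, he₀, hB⟩ := h2 p
  refine ⟨η, min e₀ (e1 p), hη, hη4, lt_min he₀ (csc_e1_pos p), ?_⟩
  intro r C
  obtain ⟨a₁, hA₁⟩ := h1 p C
  obtain ⟨a₂, hB₂⟩ := hB r C
  refine ⟨max a₁ (max a₂ (max r 1)), ?_⟩
  intro a ha V _ G e W P U hS he he' hCB u hu
  classical
  have ha₁ : a₁ ≤ a := (le_max_left _ _).trans ha
  have ha₂ : a₂ ≤ a := ((le_max_left _ _).trans (le_max_right _ _)).trans ha
  have har : r ≤ a := (((le_max_left _ _).trans (le_max_right _ _)).trans (le_max_right _ _)).trans ha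
  have ha1 : 1 ≤ a := (((le_max_right _ _).trans (le_max_right _ _)).trans (le_max_right _ _)).trans ha
  have hee : e ≤ e₀ := he'.trans (min_le_left _ _)
  have hee1 : e ≤ e1 p := he'.trans (min_le_right _ _)
  by_cases hk : ∃ k0, ∀ l, l ≠ k0 → (a : ℝ) / 32 ≤ ((nb G (P l) u).card : ℝ)
  · obtain ⟨k0, hk0⟩ := hk
    exact hB₂ a ha₂ G e W P U hS he hee hCB u hu k0 hk0
  push Not at hk
  obtain ⟨l, -, hl⟩ := hk 0
  obtain ⟨l', hll', hl'⟩ := hk l
  have key := hA₁ a ha₁ G e W P U hS hee1 hCB u hu l' l hll' hl'.le hl.le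
  have haR : (1:ℝ) ≤ a := by exact_mod_cast ha1
  have harR : (r:ℝ) ≤ a := by exact_mod_cast har
  have hκ : (0:ℝ) ≤ kc G (nb G (un P) u) (p + 2) := Nat.cast_nonneg _
  have hc2 : (0:ℝ) ≤ cc G p (un P) (p + 2) u := Nat.cast_nonneg _
  constructor
  · have e2 : ((a : ℝ) + r) * kc G (nb G (un P) u) (p + 2) ≤
        2 * a * kc G (nb G (un P) u) (p + 2) :=
      mul_le_mul_of_nonneg_right (by linarith) hκ
    have e3 : 0 ≤ (1 - η) * cc G p (un P) (p + 2) u := mul_nonneg (by linarith) hc2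
    linarith
  · have hcc : (cc G p (un P) (p + 1) u : ℝ) ≤ 2 * (a:ℝ) ^ (p + 3) := by
      have e4 : cc G p (un P) (p + 1) u ≤ ∏ i, (P i).card := by
        calc cc G p (un P) (p + 1) u ≤ (clq G (un P) (p + 3)).card := card_filter_le _ _
          _ = kc G (un P) (p + 3) := by rw [kc_eq]
          _ = (trv G P).card := (h3 G P hS.par).1
          _ ≤ (Fintype.piFinset P).card := by unfold trv; exact card_filter_le _ _
          _ = ∏ i, (P i).card := Fintype.card_piFinset P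
      calc (cc G p (un P) (p + 1) u : ℝ) ≤ ((∏ i, (P i).card : ℕ) : ℝ) := by exact_mod_cast e4
        _ = ∏ i, ((P i).card : ℝ) := by push_cast; rfl
        _ ≤ ∏ _i : Fin (p + 3), ((1 + e) * a) :=
          prod_le_prod (fun i _ => Nat.cast_nonneg _) (fun i _ => hS.hi i)
        _ = (1 + e) ^ (p + 3) * (a:ℝ) ^ (p + 3) := by
          rw [prod_const, card_univ, Fintype.card_fin, mul_pow]
        _ ≤ 2 * (a:ℝ) ^ (p + 3) :=
          mul_le_mul_of_nonneg_right (csc_pow p e he hee1) (by positivity)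
    have e5 : 8 * (a:ℝ) * kc G (nb G (un P) u) (p + 2) ≤ 8 * a * (1 / 4 * (a:ℝ) ^ (p + 2)) := by
      have : 8 * (a:ℝ) * (1 / 4 * (a:ℝ) ^ (p + 2)) = 2 * (a:ℝ) ^ (p + 3) := by ring
      rw [this]
      exact key.trans hcc
    have e6 : (kc G (nb G (un P) u) (p + 2) : ℝ) ≤ 1 / 4 * (a:ℝ) ^ (p + 2) :=
      le_of_mul_le_mul_left e5 (by positivity)
    refine e6.trans (mul_le_mul_of_nonneg_right ?_ (by positivity))
    linarith [csc_e1_le p]

end Pool.KQ
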